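import Pool.Agent.Y842.CX.Skew
import Pool.Agent.Y842.CX.Sep

/-!
# Compact groups of symmetries: functions of finite rank separate the points
-/

set_option autoImplicit false

open Finset Filter Topology MeasureTheory

namespace Pool.Agent.V11210.LS

open Pool.Agent.Y842.CX

section
variable {K : Type} [TopologicalSpace K] [Group K]

/-- matrix coefficients of unitary representations -/
def Rp (P : C(K, ℂ)) : Prop :=
  ∃ (J : Type) (_ : Fintype J) (_ : DecidableEq J) (U : K → Matrix J J ℂ),
    (∀ k, U k ∈ Matrix.unitaryGroup J ℂ) ∧ (∀ g k, U (g * k) = U g * U k) ∧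
      (∀ i j, Continuous fun k => U k i j) ∧ ∃ i j, ∀ k, P k = U k i j

lemma rp_one : Rp (1 : C(K, ℂ)) := by
  refine ⟨Unit, inferInstance, inferInstance, fun _ => 1, fun _ => one_mem _, fun _ _ => by rw [one_mul],
    fun _ _ => continuous_const, (), (), fun k => by simp⟩

lemma rp_mul {P Q : C(K, ℂ)} (hP : Rp P) (hQ : Rp Q) : Rp (P * Q) := by
  obtain ⟨J, iJ, dJ, U, h1, h2, h3, i, j, h4⟩ := hP
  obtain ⟨J', iJ', dJ', U', h1', h2', h3', i', j', h4'⟩ := hQ
  refine ⟨J × J', inferInstance, inferInstance, fun k => Matrix.kroneckerMap (fun a b => a * b) (U k) (U' k),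
    fun k => ?_, fun g k => ?_, fun a b => ?_, (i, i'), (j, j'), fun k => ?_⟩
  · exact Matrix.kronecker_mem_unitary (h1 k) (h1' k)
  · show Matrix.kroneckerMap (fun a b => a * b) (U (g * k)) (U' (g * k)) = _
    rw [h2, h2']
    exact Matrix.mul_kronecker_mul _ _ _ _
  · show Continuous fun k => U k a.1 b.1 * U' k a.2 b.2
    exact (h3 _ _).mul (h3' _ _)
  · rw [ContinuousMap.mul_apply, h4, h4']
    rfl

lemma rp_star {P : C(K, ℂ)} (hP : Rp P) : Rp (star P) := by
  obtain ⟨J, iJ, dJ, U, h1, h2, h3, i, j, h4⟩ := hP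
  refine ⟨J, iJ, dJ, fun k => (U k).map (starRingEnd ℂ), fun k => ?_, fun g k => ?_, fun a b => ?_, i, j, fun k => ?_⟩
  · have h5 := Matrix.mem_unitaryGroup_iff.1 (h1 k)
    rw [Matrix.mem_unitaryGroup_iff]
    have e : star ((U k).map (starRingEnd ℂ)) = (star (U k)).map (starRingEnd ℂ) := by
      ext a b
      simp [Matrix.star_apply]
    rw [e, ← Matrix.map_mul, h5]
    ext a b
    rw [Matrix.map_apply, Matrix.one_apply]
    split_ifs <;> simp
  · show (U (g * k)).map (starRingEnd ℂ) = _
    rw [h2, Matrix.map_mul]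
  · exact Complex.continuous_conj.comp (h3 a b)
  · rw [ContinuousMap.star_apply, h4]
    rfl

/-- the algebra of matrix coefficients -/
noncomputable def ralg : StarSubalgebra ℂ C(K, ℂ) where
  carrier := (Submodule.span ℂ {F : C(K, ℂ) | Rp F} : Set C(K, ℂ))
  mul_mem' := by
    intro a b ha hb
    have h2 : a * b ∈ (Submodule.span ℂ {F : C(K, ℂ) | Rp F}) * (Submodule.span ℂ {F : C(K, ℂ) | Rp F}) :=
      Submodule.mul_mem_mul ha hb
    rw [Submodule.span_mul_span] at h2
    refine Submodule.span_mono ?_ h2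
    rintro _ ⟨F, hF, G, hG, rfl⟩
    exact rp_mul hF hG
  add_mem' := by
    intro a b ha hb
    exact Submodule.add_mem _ ha hb
  algebraMap_mem' := by
    intro r
    have e : algebraMap ℂ C(K, ℂ) r = r • (1 : C(K, ℂ)) := Algebra.algebraMap_eq_smul_one r
    rw [e]
    exact Submodule.smul_mem _ _ (Submodule.subset_span rp_one)
  star_mem' := by
    intro a ha
    have ha' : a ∈ Submodule.span ℂ {F : C(K, ℂ) | Rp F} := ha
    show star a ∈ Submodule.span ℂ {F : C(K, ℂ) | Rp F}
    induction ha' using Submodule.span_induction with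
    | mem x hx => exact Submodule.subset_span (rp_star hx)
    | zero =>
      rw [star_zero]
      exact Submodule.zero_mem _
    | add x y hx hy h3 h4 =>
      rw [star_add]
      exact Submodule.add_mem _ (h3 hx) (h4 hy)
    | smul c x hx h3 =>
      rw [star_smul]
      exact Submodule.smul_mem _ _ (h3 hx)

variable [IsTopologicalGroup K] [CompactSpace K] [T2Space K]

lemma ralg_dense (P : C(K, ℂ)) : P ∈ closure (Submodule.span ℂ {F : C(K, ℂ) | Rp F} : Set C(K, ℂ)) := by
  have h2 : (ralg : StarSubalgebra ℂ C(K, ℂ)).toSubalgebra.SeparatesPoints := by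
    intro x x' hx
    obtain ⟨r, ρ, hρ, h3⟩ := separated_of_compact K x x' hx
    have h4 : ∃ i j, (ρ x : Matrix (Fin r) (Fin r) ℂ) i j ≠ (ρ x' : Matrix (Fin r) (Fin r) ℂ) i j := by
      by_contra hcon
      push Not at hcon
      apply h3
      apply Subtype.ext
      ext i j
      exact hcon i j
    obtain ⟨i, j, h5⟩ := h4
    refine ⟨_, ⟨⟨fun k => (ρ k : Matrix (Fin r) (Fin r) ℂ) i j,
      (continuous_subtype_val.comp hρ).matrix_elem i j⟩, ?_, rfl⟩, h5⟩
    apply Submodule.subset_span
    refine ⟨Fin r, inferInstance, inferInstance, fun k => (ρ k : Matrix (Fin r) (Fin r) ℂ), fun k => (ρ k).2,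
      fun g k => by
        show ((ρ (g * k) : Matrix.unitaryGroup (Fin r) ℂ) : Matrix (Fin r) (Fin r) ℂ) = _
        rw [map_mul]
        rfl, fun a b => (continuous_subtype_val.comp hρ).matrix_elem a b, i, j, fun k => rfl⟩
  have h3 := ContinuousMap.starSubalgebra_topologicalClosure_eq_top_of_separatesPoints
    (ralg : StarSubalgebra ℂ C(K, ℂ)) h2
  have h4 : P ∈ (ralg : StarSubalgebra ℂ C(K, ℂ)).topologicalClosure := by
    rw [h3]
    trivial
  exact h4

/-- a continuous function orthogonal to the matrix coefficients vanishes -/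
lemma zero_of_orth [MeasurableSpace K] [BorelSpace K] (μ : Measure K) [IsFiniteMeasure μ] [μ.IsOpenPosMeasure]
    (h : C(K, ℂ)) (h0 : ∀ P : C(K, ℂ), Rp P → ∫ k, P k * h k ∂μ = 0) (k : K) : h k = 0 := by
  have hint : ∀ P : C(K, ℂ), Integrable (fun k => P k * h k) μ := fun P =>
    (P.continuous.mul h.continuous).integrable_of_hasCompactSupport (HasCompactSupport.of_compactSpace _)
  have h1 : ∀ P ∈ Submodule.span ℂ {F : C(K, ℂ) | Rp F}, ∫ k, P k * h k ∂μ = 0 := by
    intro P hP
    induction hP using Submodule.span_induction with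
    | mem x hx => exact h0 x hx
    | zero => simp
    | add x y hx hy h3 h4 =>
      have e : (fun k => (x + y) k * h k) = fun k => x k * h k + y k * h k := by
        funext k
        rw [ContinuousMap.add_apply, add_mul]
      rw [e, integral_add (hint x) (hint y), h3, h4, add_zero]
    | smul c x hx h3 =>
      have e : (fun k => (c • x) k * h k) = fun k => c * (x k * h k) := by
        funext k
        rw [ContinuousMap.smul_apply, smul_eq_mul, mul_assoc]
      rw [e, integral_const_mul, h3, mul_zero]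
  have h2 : ∀ P : C(K, ℂ), ∫ k, P k * h k ∂μ = 0 := by
    intro P
    have h3 : ∀ ε : ℝ, 0 < ε → ‖∫ k, P k * h k ∂μ‖ ≤ ε := by
      intro ε hε
      set C : ℝ := ‖h‖ * (μ Set.univ).toReal + 1 with hC
      have hC0 : 0 < C := by positivity
      have h5 := ralg_dense P
      rw [Metric.mem_closure_iff] at h5
      obtain ⟨Q, hQ, hd⟩ := h5 (ε / C) (by positivity)
      have e : ∫ k, P k * h k ∂μ = ∫ k, (P - Q) k * h k ∂μ := by
        have e1 : (fun k => P k * h k) = fun k => (P - Q) k * h k + Q k * h k := by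
          funext k
          rw [ContinuousMap.sub_apply]
          ring
        rw [e1, integral_add (hint _) (hint _), h1 Q hQ, add_zero]
      rw [e]
      rw [dist_eq_norm] at hd
      have h6 : ∀ k, ‖(P - Q) k * h k‖ ≤ ε / C * ‖h‖ := by
        intro k
        rw [norm_mul]
        exact mul_le_mul (((P - Q).norm_coe_le_norm k).trans hd.le) (h.norm_coe_le_norm k) (norm_nonneg _) (by positivity)
      refine (norm_integral_le_of_norm_le_const (ae_of_all _ h6)).trans ?_
      calc ε / C * ‖h‖ * μ.real Set.univ = ε / C * (‖h‖ * (μ Set.univ).toReal) := by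
            rw [Measure.real]
            ring
        _ ≤ ε / C * C := by
            apply mul_le_mul_of_nonneg_left _ (by positivity)
            rw [hC]
            linarith
        _ = ε := by field_simp
    have h4 : ‖∫ k, P k * h k ∂μ‖ ≤ 0 := le_of_forall_pos_le_add fun ε hε => by
      rw [zero_add]
      exact h3 ε hε
    exact norm_le_zero_iff.1 h4
  have h3 := h2 (star h)
  have e : (fun k => (star h) k * h k) = fun k => ((‖h k‖ ^ 2 : ℝ) : ℂ) := by
    funext k
    rw [ContinuousMap.star_apply, Complex.star_def, ← Complex.normSq_eq_conj_mul_self, Complex.normSq_eq_norm_sq]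
  rw [e, integral_complex_ofReal] at h3
  have h4 : ∫ k, ‖h k‖ ^ 2 ∂μ = 0 := by exact_mod_cast h3
  have hc : Continuous fun k => ‖h k‖ ^ 2 := h.continuous.norm.pow 2
  have h5 : (fun k => ‖h k‖ ^ 2) =ᵐ[μ] 0 := by
    refine (integral_eq_zero_iff_of_nonneg (fun k => by positivity) ?_).1 h4
    exact hc.integrable_of_hasCompactSupport (HasCompactSupport.of_compactSpace _)
  have h6 := Continuous.ae_eq_iff_eq μ hc continuous_zero |>.1 h5
  have h7 := congrFun h6 k
  simpa using h7

variable {X : Type} [TopologicalSpace X] [CompactSpace X] [MulAction K X] [ContinuousSMul K X]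

/-- averages over the group -/
noncomputable def av [MeasurableSpace K] [BorelSpace K] (μ : Measure K) [IsFiniteMeasure μ] (P : C(K, ℂ)) (f : C(X, ℂ)) :
    C(X, ℂ) where
  toFun x := ∫ k, P k * f (k⁻¹ • x) ∂μ
  continuous_toFun := by
    let Φ : C(X, C(K, ℂ)) := ContinuousMap.curry ⟨fun p : X × K => P p.2 * f (p.2⁻¹ • p.1), by fun_prop⟩
    have h1 : Continuous fun g : C(K, ℂ) => ∫ k, g k ∂μ := by
      have h2 : LipschitzWith (μ Set.univ).toNNReal fun g : C(K, ℂ) => ∫ k, g k ∂μ := by
        apply LipschitzWith.of_dist_le_mul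
        intro g g'
        have hint : ∀ P : C(K, ℂ), Integrable (fun k => P k) μ := fun P =>
          P.continuous.integrable_of_hasCompactSupport (HasCompactSupport.of_compactSpace _)
        rw [dist_eq_norm, dist_eq_norm, ← integral_sub (hint g) (hint g')]
        refine (norm_integral_le_of_norm_le_const (C := ‖g - g'‖) (ae_of_all _ fun k => ?_)).trans ?_
        · exact (g - g').norm_coe_le_norm k
        · rw [mul_comm]
          exact le_of_eq rfl
      exact h2.continuous
    exact h1.comp Φ.continuous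

/-- the vector of averages -/
lemma av_equiv [MeasurableSpace K] [BorelSpace K] (μ : Measure K) [IsFiniteMeasure μ] [μ.IsMulLeftInvariant]
    {J : Type} [Fintype J] [DecidableEq J] (U : K → Matrix J J ℂ) (h2 : ∀ g k, U (g * k) = U g * U k)
    (h3 : ∀ i j, Continuous fun k => U k i j) (f : C(X, ℂ)) (j a : J) (g : K) (x : X) :
    av μ ⟨fun k => U k a j, h3 a j⟩ f (g • x) = ∑ b, U g a b * av μ ⟨fun k => U k b j, h3 b j⟩ f x := by
  show ∫ k, U k a j * f (k⁻¹ • g • x) ∂μ = ∑ b, U g a b * ∫ k, U k b j * f (k⁻¹ • x) ∂μ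
  rw [← integral_mul_left_eq_self (fun k => U k a j * f (k⁻¹ • g • x)) g]
  have e : ∀ k, U (g * k) a j * f ((g * k)⁻¹ • g • x) = ∑ b, U g a b * (U k b j * f (k⁻¹ • x)) := by
    intro k
    rw [h2, Matrix.mul_apply, mul_inv_rev, mul_smul, inv_smul_smul, sum_mul]
    exact sum_congr rfl fun b _ => by ring
  simp only [e]
  rw [integral_finset_sum]
  · exact sum_congr rfl fun b _ => integral_const_mul _ _
  · intro b _
    apply Integrable.const_mul
    have hc : Continuous fun k : K => U k b j * f (k⁻¹ • x) := (h3 b j).mul (by fun_prop)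
    exact hc.integrable_of_hasCompactSupport (HasCompactSupport.of_compactSpace _)

/-- the averages against matrix coefficients have finite rank over the quotient -/
lemma good_av [MeasurableSpace K] [BorelSpace K] (μ : Measure K) [IsFiniteMeasure μ] [μ.IsMulLeftInvariant]
    {T : X → X} (hT : Continuous T) (hTK : ∀ (k : K) (x : X), T (k • x) = k • T x) (f : C(X, ℂ)) {P : C(K, ℂ)}
    (hP : Rp P) : Good T (Quotient.mk (MulAction.orbitRel K X)) (av μ P f) := by
  obtain ⟨J, iJ, dJ, U, h1, h2, h3, i, j, h4⟩ := hP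
  have hTm : ∀ (m : ℕ) (k : K) (x : X), T^[m] (k • x) = k • T^[m] x := by
    intro m k x
    induction m with
    | zero => rfl
    | succ m ih => rw [Function.iterate_succ_apply', ih, hTK, Function.iterate_succ_apply']
  set V : J → C(X, ℂ) := fun a => av μ ⟨fun k => U k a j, h3 a j⟩ f with hV
  have hVg : ∀ (a : J) (g : K) (x : X), V a (g • x) = ∑ b, U g a b * V b x := fun a g x =>
    av_equiv μ U h2 h3 f j a g x
  refine ⟨J, iJ, V, ⟨i, ?_⟩, fun m => ?_⟩
  · rw [hV]
    show av μ ⟨fun k => U k i j, h3 i j⟩ f = av μ P f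
    congr 1
    ext k
    exact (h4 k).symm
  · set c : X → ℂ := fun x => ∑ a, V a x * (starRingEnd ℂ) (V a (T^[m] x)) with hc
    have hcc : Continuous c := by
      rw [hc]
      refine continuous_finset_sum _ fun a _ => (V a).continuous.mul ?_
      exact Complex.continuous_conj.comp ((V a).continuous.comp (hT.iterate m))
    have hci : ∀ (g : K) (x : X), c (g • x) = c x := by
      intro g x
      have e0 : c (g • x) = dotProduct (Matrix.mulVec (U g) fun b => V b x)
          (star (Matrix.mulVec (U g) fun b => V b (T^[m] x))) := by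
        rw [hc]
        refine sum_congr rfl fun a _ => ?_
        rw [hTm, hVg, hVg]
        rfl
      have e1 : c x = dotProduct (fun b => V b x) (star fun b => V b (T^[m] x)) := rfl
      rw [e0, e1, Matrix.star_mulVec, dotProduct_comm, ← Matrix.dotProduct_mulVec, Matrix.mulVec_mulVec,
        ← Matrix.star_eq_conjTranspose, Matrix.mem_unitaryGroup_iff'.1 (h1 g), Matrix.one_mulVec, dotProduct_comm]
    have hcr : ∀ x x' : X, MulAction.orbitRel K X x x' → c x = c x' := by
      rintro x x' ⟨g, hg⟩
      rw [← hg]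
      exact hci g x'
    refine ⟨⟨Quotient.lift c hcr, continuous_quot_lift _ hcc⟩, fun x => rfl⟩

/-- the functions of finite rank over the quotient by a compact group of symmetries separate the points -/
theorem sep [T2Space X] {T : X → X} (hT : Continuous T) (hTK : ∀ (k : K) (x : X), T (k • x) = k • T x) (x x' : X)
    (hx : x ≠ x') : ∃ F : C(X, ℂ), Good T (Quotient.mk (MulAction.orbitRel K X)) F ∧ F x ≠ F x' := by
  letI : MeasurableSpace K := borel K
  haveI : BorelSpace K := ⟨rfl⟩
  let μ : Measure K := Measure.haar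
  by_contra hcon
  push Not at hcon
  obtain ⟨f, h2, h3, -⟩ := exists_continuous_zero_one_of_isClosed (isClosed_singleton (x := x))
    (isClosed_singleton (x := x')) (by
      rw [Set.disjoint_singleton]
      exact hx)
  set f' : C(X, ℂ) := ⟨fun y => ((f y : ℝ) : ℂ), by fun_prop⟩ with hf'
  have h4 := zero_of_orth μ (⟨fun k => f' (k⁻¹ • x) - f' (k⁻¹ • x'), by fun_prop⟩ : C(K, ℂ)) (fun P hP => by
    have h5 := hcon (av μ P f') (good_av μ hT hTK f' hP)
    have h6 : ∫ k, P k * f' (k⁻¹ • x) ∂μ = ∫ k, P k * f' (k⁻¹ • x') ∂μ := h5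
    have hint : ∀ x : X, Integrable (fun k => P k * f' (k⁻¹ • x)) μ := fun x => by
      have hc : Continuous fun k : K => P k * f' (k⁻¹ • x) := by fun_prop
      exact hc.integrable_of_hasCompactSupport (HasCompactSupport.of_compactSpace _)
    have e : (fun k => P k * (⟨fun k => f' (k⁻¹ • x) - f' (k⁻¹ • x'), by fun_prop⟩ : C(K, ℂ)) k) =
        fun k => P k * f' (k⁻¹ • x) - P k * f' (k⁻¹ • x') := by
      funext k
      exact mul_sub _ _ _
    rw [e, integral_sub (hint x) (hint x'), h6, sub_self]) 1
  have h5 : f' ((1 : K)⁻¹ • x) - f' ((1 : K)⁻¹ • x') = 0 := h4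
  rw [inv_one, one_smul, one_smul] at h5
  have h6 : ((f x : ℝ) : ℂ) - ((f x' : ℝ) : ℂ) = 0 := h5
  rw [h2 (Set.mem_singleton x), h3 (Set.mem_singleton x')] at h6
  simp at h6

end

end Pool.Agent.V11210.LS
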