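import Pool.Agent.V11210.LS.Logw
import Pool.Agent.V11210.LS.Rep
import Pool.Agent.Y842.CX.Nat

/-!
# Logarithmic averages: sets of small density, almost periodic weights, conclusions
-/

set_option autoImplicit false

open Finset Filter Topology

namespace Pool.Agent.V11210.LS

open Pool.Agent.Y842.CX
open Pool.Agent.Helper602.MK (ee)
open Pool.Agent.Helper602.MK.N_J1c (c_ee_add c_ee_int c_norm_ee)
open Pool.Agent.Y842.PH

open Classical in
/-- `A` has upper logarithmic density at most `δ` (in the strong sense that the inequality holds at all large scales) -/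
def Dn (A : Set ℕ) (δ : ℝ) : Prop :=
  ∃ N₁ : ℕ, ∀ N : ℕ, N₁ ≤ N → (∑ n ∈ Icc 1 N, if n ∈ A then (1 : ℝ) / n else 0) ≤ δ * Real.log N

lemma dn_of_ldz {E : Set ℕ} (hE : LDZ E) (δ : ℝ) (hδ : 0 < δ) : Dn E δ := by
  obtain ⟨N₁, h1⟩ := ((hE.eventually_lt_const hδ).and (eventually_ge_atTop 3)).exists_forall_of_atTop
  refine ⟨N₁, fun N hN => ?_⟩
  obtain ⟨h2, h3⟩ := h1 N hN
  have hl := log_ge N h3
  rw [div_lt_iff₀ (by linarith)] at h2
  exact h2.le

lemma dn_fin (N₀ : ℕ) (ε : ℝ) (hε : 0 < ε) : Dn {N : ℕ | N < N₀} ε := by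
  obtain ⟨N₁, h1⟩ := (tendsto_log.eventually_ge_atTop ((N₀ : ℝ) / ε)).exists_forall_of_atTop
  refine ⟨N₁, fun N hN => ?_⟩
  have h2 := h1 N hN
  rw [div_le_iff₀ hε] at h2
  have h3 : ∀ X : ℕ, ∑ n ∈ Icc 1 X, (if n < N₀ then (1 : ℝ) else 0) ≤ N₀ := by
    intro X
    rw [← sum_filter, sum_const, nsmul_eq_mul, mul_one]
    have : (filter (fun n => n < N₀) (Icc 1 X)).card ≤ (range N₀).card := by
      apply card_le_card
      intro n hn
      rw [mem_filter] at hn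
      exact mem_range.2 hn.2
    rw [card_range] at this
    exact_mod_cast this
  refine (sum_le_sum (g := fun n => if n < N₀ then (1 : ℝ) else 0) fun n hn => ?_).trans ((h3 N).trans (by linarith))
  rw [mem_Icc] at hn
  have hn1 : (1 : ℝ) ≤ n := by exact_mod_cast hn.1
  have h4 : (1 : ℝ) / n ≤ 1 := by
    rw [div_le_one (by linarith)]
    exact hn1
  by_cases hn0 : n < N₀
  · have h5 : n ∈ {N : ℕ | N < N₀} := hn0
    rw [if_pos h5, if_pos hn0]
    exact h4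
  · have h5 : n ∉ {N : ℕ | N < N₀} := hn0
    rw [if_neg h5, if_neg hn0]

lemma dn_union {E A : Set ℕ} {δ δ' : ℝ} (hE : Dn E δ) (hA : Dn A δ') : Dn (E ∪ A) (δ + δ') := by
  classical
  obtain ⟨N₁, h1⟩ := hE
  obtain ⟨N₂, h2⟩ := hA
  refine ⟨N₁ + N₂, fun N hN => ?_⟩
  have h3 := h1 N (by omega)
  have h4 := h2 N (by omega)
  rw [add_mul]
  refine le_trans ?_ (add_le_add h3 h4)
  rw [← sum_add_distrib]
  refine sum_le_sum fun n _ => ?_
  have hn : (0 : ℝ) ≤ 1 / n := by positivity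
  by_cases hE : n ∈ E <;> by_cases hA : n ∈ A <;> simp [hE, hA]

/-- the partial summation -/
lemma log_del (c : ℕ → ℂ) (B : ℝ) (hB : ∀ n, ‖c n‖ ≤ B) (E : Set ℕ) (δ : ℝ) (hE : Dn E δ) (ε : ℝ)
    (hε : 0 < ε) (N₀ : ℕ) (h : ∀ N : ℕ, N₀ ≤ N → N ∉ E → ‖∑ n ∈ range N, c n‖ ≤ ε * N) :
    ∃ N₁ : ℕ, ∀ N : ℕ, N₁ ≤ N → ‖∑ n ∈ range N, c n * (1 / ((n : ℂ) + 1))‖ ≤ (2 * ε + B * δ) * Real.log N := by
  classical
  have hB0 : 0 ≤ B := (norm_nonneg _).trans (hB 0)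
  have hS : ∀ n : ℕ, ‖∑ k ∈ range n, c k‖ ≤ B * n := by
    intro n
    refine (norm_sum_le _ _).trans ((sum_le_sum fun k _ => hB k).trans ?_)
    rw [sum_const, card_range, nsmul_eq_mul]
    linarith
  obtain ⟨N₂, hN₂⟩ := hE
  have hlog : ∀ᶠ X : ℕ in atTop, (B + ε + B * N₀) / ε ≤ Real.log X := tendsto_log.eventually_ge_atTop _
  obtain ⟨N₁, hN₁⟩ := (hlog.and (eventually_ge_atTop 3)).exists_forall_of_atTop
  refine ⟨N₁ + N₂, fun N hN => ?_⟩
  obtain ⟨h2, h3⟩ := hN₁ N (by omega)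
  have h1 := hN₂ N (by omega)
  have hNR : (3 : ℝ) ≤ N := by exact_mod_cast h3
  have hlogN : 0 < Real.log N := Real.log_pos (by linarith)
  rw [div_le_iff₀ hε] at h2
  rw [abel]
  have t1 : ‖(∑ n ∈ range N, c n) * (1 / ((N : ℂ) + 1))‖ ≤ B := by
    rw [norm_mul, norm_div, norm_one]
    have e1 : ‖(N : ℂ) + 1‖ = (N : ℝ) + 1 := by
      have : ((N : ℂ) + 1) = ((N + 1 : ℕ) : ℂ) := by push_cast; ring
      rw [this, Complex.norm_natCast]
      push_cast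
      ring
    rw [e1, mul_one_div, div_le_iff₀ (by positivity)]
    have := hS N
    nlinarith
  have t2 : ‖∑ n ∈ range N, (∑ k ∈ range (n + 1), c k) * (1 / (((n : ℂ) + 1) * ((n : ℂ) + 2)))‖ ≤
      ∑ n ∈ range N, (ε * (1 / ((n : ℝ) + 1)) + B * (if n + 1 ∈ E then 1 / ((n : ℝ) + 1) else 0) +
        (if n < N₀ then B else 0)) := by
    refine (norm_sum_le _ _).trans (sum_le_sum fun n _ => ?_)
    have hn1 : (0 : ℝ) < (n : ℝ) + 1 := by positivity
    have hn2 : (0 : ℝ) < (n : ℝ) + 2 := by positivity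
    have e1 : ‖((n : ℂ) + 1) * ((n : ℂ) + 2)‖ = ((n : ℝ) + 1) * ((n : ℝ) + 2) := by
      have : ((n : ℂ) + 1) * ((n : ℂ) + 2) = (((n + 1) * (n + 2) : ℕ) : ℂ) := by push_cast; ring
      rw [this, Complex.norm_natCast]
      push_cast
      ring
    rw [norm_mul, norm_div, norm_one, e1]
    have hs := hS (n + 1)
    push_cast at hs
    have hle : 1 / (((n : ℝ) + 1) * ((n : ℝ) + 2)) * ((n : ℝ) + 1) ≤ 1 / ((n : ℝ) + 1) := by
      rw [one_div, mul_inv, mul_comm ((n : ℝ) + 1)⁻¹, mul_assoc, inv_mul_cancel₀ hn1.ne', mul_one, one_div]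
      exact inv_anti₀ hn1 (by linarith)
    have hq : (0 : ℝ) ≤ 1 / (((n : ℝ) + 1) * ((n : ℝ) + 2)) := by positivity
    have hle1 : 1 / ((n : ℝ) + 1) ≤ 1 := by
      rw [div_le_one hn1]
      have : (0 : ℝ) ≤ n := Nat.cast_nonneg n
      linarith
    have hp : (0 : ℝ) < 1 / ((n : ℝ) + 1) := by positivity
    by_cases hc1 : n + 1 ∈ E
    · rw [if_pos hc1]
      have hx : 0 ≤ (if n < N₀ then B else 0) := by split_ifs <;> [exact hB0; exact le_rfl]
      have hy : 0 ≤ ε * (1 / ((n : ℝ) + 1)) := by positivity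
      calc ‖∑ k ∈ range (n + 1), c k‖ * (1 / (((n : ℝ) + 1) * ((n : ℝ) + 2)))
          ≤ (B * ((n : ℝ) + 1)) * (1 / (((n : ℝ) + 1) * ((n : ℝ) + 2))) := by gcongr
        _ = B * (1 / (((n : ℝ) + 1) * ((n : ℝ) + 2)) * ((n : ℝ) + 1)) := by ring
        _ ≤ B * (1 / ((n : ℝ) + 1)) := by gcongr
        _ ≤ _ := by linarith
    · rw [if_neg hc1, mul_zero, add_zero]
      by_cases hc2 : n < N₀
      · rw [if_pos hc2]
        have hy : 0 ≤ ε * (1 / ((n : ℝ) + 1)) := by positivity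
        calc ‖∑ k ∈ range (n + 1), c k‖ * (1 / (((n : ℝ) + 1) * ((n : ℝ) + 2)))
            ≤ (B * ((n : ℝ) + 1)) * (1 / (((n : ℝ) + 1) * ((n : ℝ) + 2))) := by gcongr
          _ = B * (1 / (((n : ℝ) + 1) * ((n : ℝ) + 2)) * ((n : ℝ) + 1)) := by ring
          _ ≤ B * (1 / ((n : ℝ) + 1)) := by gcongr
          _ ≤ B * 1 := by gcongr
          _ ≤ _ := by linarith
      · rw [if_neg hc2, add_zero]
        have h5 := h (n + 1) (by omega) hc1
        push_cast at h5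
        calc ‖∑ k ∈ range (n + 1), c k‖ * (1 / (((n : ℝ) + 1) * ((n : ℝ) + 2)))
            ≤ (ε * ((n : ℝ) + 1)) * (1 / (((n : ℝ) + 1) * ((n : ℝ) + 2))) := by gcongr
          _ = ε * (1 / (((n : ℝ) + 1) * ((n : ℝ) + 2)) * ((n : ℝ) + 1)) := by ring
          _ ≤ ε * (1 / ((n : ℝ) + 1)) := by gcongr
  have t3 : ∑ n ∈ range N, (ε * (1 / ((n : ℝ) + 1)) + B * (if n + 1 ∈ E then 1 / ((n : ℝ) + 1) else 0) +
        (if n < N₀ then B else 0)) ≤ ε * (1 + Real.log N) + B * (δ * Real.log N) + B * N₀ := by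
    rw [sum_add_distrib, sum_add_distrib, ← mul_sum, ← mul_sum]
    have u1 := harm_le N
    have u2 : ∑ n ∈ range N, (if n + 1 ∈ E then 1 / ((n : ℝ) + 1) else 0) ≤ δ * Real.log N := by
      refine le_trans (le_of_eq ?_) h1
      rw [Icc_eq]
      refine sum_congr rfl fun n _ => ?_
      push_cast
      rfl
    have u3 : ∑ n ∈ range N, (if n < N₀ then B else 0) ≤ B * N₀ := by
      rw [← sum_filter, sum_const, nsmul_eq_mul, mul_comm]
      apply mul_le_mul_of_nonneg_left _ hB0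
      have : (filter (fun n => n < N₀) (range N)).card ≤ (range N₀).card := by
        apply card_le_card
        intro n hn
        rw [mem_filter] at hn
        exact mem_range.2 hn.2
      rw [card_range] at this
      exact_mod_cast this
    gcongr
  have t5 := (norm_add_le _ _).trans (add_le_add t1 (t2.trans t3))
  refine t5.trans ?_
  nlinarith

/-- almost periodic at the scale `N`, with `J` phases and error `ε N` -/
def AtScale (b : ℕ → ℂ) (ε : ℝ) (J N : ℕ) : Prop := ∃ (ρ : Fin J → ℕ → ℂ) (α : Fin J → ℝ),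
    (∀ j n, ‖ρ j n‖ ≤ J) ∧ (∀ j, ∑ n ∈ range N, ‖ρ j (n + 1) - ρ j n‖ ≤ J) ∧
      ∑ n ∈ range N, ‖b n - ∑ j, ρ j n * ee (α j * n)‖ ≤ ε * N

/-- almost periodic at almost all scales -/
def APM (b : ℕ → ℂ) : Prop := ∀ ε : ℝ, 0 < ε → ∃ (J : ℕ) (A : Set ℕ), Dn A ε ∧ ∀ N : ℕ, N ∉ A → AtScale b ε J N

lemma kills_scale (f : ℕ → ℤ) (hb : ∀ n, |f n| ≤ 1) (E : Set ℕ) (k : ℕ) (hE : ∀ ε : ℝ, 0 < ε →
      ∃ N₀ : ℕ, ∀ N : ℕ, N₀ ≤ N → N ∉ E → ∀ α : ℝ, ‖Cr f k N α‖ ≤ ε * N) (J : ℕ) (ε : ℝ) (hε : 0 < ε) :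
    ∃ N₁ : ℕ, ∀ N : ℕ, N₁ ≤ N → N ∉ E → ∀ b : ℕ → ℂ, AtScale b (ε / 2) J N →
      ‖∑ n ∈ range N, (starRingEnd ℂ) (f n : ℂ) * (f (n + k) : ℂ) * b n‖ ≤ ε * N := by
  set η : ℝ := min 1 (ε / (4 * (J + 1) ^ 2)) with hη
  have hη0 : 0 < η := lt_min one_pos (by positivity)
  have hη1 : η ≤ 1 := min_le_left _ _
  have hη2 : η ≤ ε / (4 * (J + 1) ^ 2) := min_le_right _ _
  obtain ⟨N₁, hN₁⟩ := hE (η ^ 2 / 16) (by positivity)
  obtain ⟨N₂, hN₂⟩ := exists_nat_ge (8 / η)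
  refine ⟨N₁ + N₂ + 1, fun N hN hNE b hAP => ?_⟩
  have hN0 : (0 : ℝ) < N := by exact_mod_cast (by omega : 0 < N)
  have hf1 : ∀ n, ‖(f n : ℂ)‖ ≤ 1 := by
    intro n
    rw [Complex.norm_intCast]
    exact_mod_cast hb n
  have hff : ∀ n, ‖(f n : ℂ) * f (n + k)‖ ≤ 1 := by
    intro n
    rw [norm_mul]
    exact mul_le_one₀ (hf1 _) (norm_nonneg _) (hf1 _)
  obtain ⟨ρ, α, hρ1, hρ2, hρ3⟩ := hAP
  have h2 : ∀ j, ‖∑ n ∈ range N, ρ j n * (((f n : ℂ) * f (n + k)) * ee (α j * n))‖ ≤ 2 * J * (η * N) := fun j =>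
    bv_sum (ρ j) _ J (η * N) (by positivity) N (hρ1 j N) (hρ2 j) (fun y hy =>
      part N (fun n => (f n : ℂ) * f (n + k)) hff η hη0 hη1
      (hN₂.trans (by exact_mod_cast (by omega : N₂ ≤ N))) (fun β => hN₁ N (by omega) hNE β) y hy (α j))
  have e1 : ∑ n ∈ range N, (starRingEnd ℂ) (f n : ℂ) * (f (n + k) : ℂ) * b n =
      ∑ j, ∑ n ∈ range N, ρ j n * (((f n : ℂ) * f (n + k)) * ee (α j * n)) +
      ∑ n ∈ range N, ((f n : ℂ) * f (n + k)) * (b n - ∑ j, ρ j n * ee (α j * n)) := by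
    rw [sum_comm, ← sum_add_distrib]
    refine sum_congr rfl fun n _ => ?_
    rw [map_intCast, mul_sub, mul_sum]
    have e2 : ∑ j, ρ j n * (((f n : ℂ) * f (n + k)) * ee (α j * n)) =
        ∑ j, (f n : ℂ) * f (n + k) * (ρ j n * ee (α j * n)) := sum_congr rfl fun j _ => by ring
    rw [e2]
    ring
  rw [e1]
  refine (norm_add_le _ _).trans ?_
  have h4 : ‖∑ j, ∑ n ∈ range N, ρ j n * (((f n : ℂ) * f (n + k)) * ee (α j * n))‖ ≤ ε / 2 * N := by
    refine (norm_sum_le _ _).trans ?_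
    refine (sum_le_sum fun j _ => h2 j).trans ?_
    rw [sum_const, card_univ, Fintype.card_fin, nsmul_eq_mul]
    have hJ : (0 : ℝ) ≤ J := Nat.cast_nonneg J
    calc (J : ℝ) * (2 * J * (η * N)) = 2 * J ^ 2 * η * N := by ring
      _ ≤ 2 * (J + 1) ^ 2 * (ε / (4 * (J + 1) ^ 2)) * N := by
          apply mul_le_mul_of_nonneg_right _ hN0.le
          apply mul_le_mul _ hη2 hη0.le (by positivity)
          apply mul_le_mul_of_nonneg_left _ (by norm_num)
          exact pow_le_pow_left₀ hJ (by linarith) 2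
      _ = ε / 2 * N := by
          field_simp
          ring
  have h5 : ‖∑ n ∈ range N, ((f n : ℂ) * f (n + k)) * (b n - ∑ j, ρ j n * ee (α j * n))‖ ≤ ε / 2 * N := by
    refine (norm_sum_le _ _).trans (le_trans (sum_le_sum fun n _ => ?_) hρ3)
    rw [norm_mul]
    calc ‖(f n : ℂ) * f (n + k)‖ * ‖b n - ∑ j, ρ j n * ee (α j * n)‖ ≤ 1 * ‖b n - ∑ j, ρ j n * ee (α j * n)‖ :=
          mul_le_mul_of_nonneg_right (hff n) (norm_nonneg _)
      _ = _ := one_mul _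
  linarith

lemma norm_log (N : ℕ) (hN : 3 ≤ N) : ‖(1 / (Real.log N : ℂ))‖ = 1 / Real.log N := by
  have := log_ge N hN
  rw [norm_div, norm_one, Complex.norm_real, Real.norm_of_nonneg (by linarith)]

/-- logarithmic two-point correlations with almost periodic weights -/
theorem kills_log (f : ℕ → ℤ) (hb : ∀ n, |f n| ≤ 1) (E : Set ℕ) (hE0 : LDZ E) (hE : ∀ k : ℕ, 1 ≤ k → ∀ ε : ℝ, 0 < ε →
      ∃ N₀ : ℕ, ∀ N : ℕ, N₀ ≤ N → N ∉ E → ∀ α : ℝ, ‖Cr f k N α‖ ≤ ε * N) (b : ℕ → ℂ) (B : ℝ)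
      (hbB : ∀ n, ‖b n‖ ≤ B) (hAP : APM b) :
    Kills (fun n => (f n : ℂ)) atTop logw (fun N => N) b := by
  intro k hk ε hε
  have hB0 : 0 ≤ B := (norm_nonneg _).trans (hbB 0)
  set δ : ℝ := min (ε / 8) (ε / (4 * (B + 1))) with hδ
  have hδ0 : 0 < δ := lt_min (by positivity) (by positivity)
  have hδ1 : δ ≤ ε / 8 := min_le_left _ _
  have hδ2 : δ ≤ ε / (4 * (B + 1)) := min_le_right _ _
  obtain ⟨J, A, hA, h1⟩ := hAP δ hδ0
  obtain ⟨N₁, hN₁⟩ := kills_scale f hb E k (hE k hk) J (2 * δ) (by positivity)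
  have hc : ∀ n, ‖(starRingEnd ℂ) (f n : ℂ) * (f (n + k) : ℂ) * b n‖ ≤ B := by
    intro n
    have hf1 : ∀ n, ‖(f n : ℂ)‖ ≤ 1 := by
      intro n
      rw [Complex.norm_intCast]
      exact_mod_cast hb n
    rw [norm_mul, norm_mul, RCLike.norm_conj]
    calc ‖(f n : ℂ)‖ * ‖(f (n + k) : ℂ)‖ * ‖b n‖ ≤ 1 * 1 * B := by
          gcongr
          · exact hf1 n
          · exact hf1 _
          · exact hbB n
      _ = B := by ring
  obtain ⟨N₂, hN₂⟩ := log_del (fun n => (starRingEnd ℂ) (f n : ℂ) * (f (n + k) : ℂ) * b n) B hc (E ∪ A) (δ + δ)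
    (dn_union (dn_of_ldz hE0 δ hδ0) hA) (2 * δ) (by positivity) N₁ (fun N hN hNE => by
      refine hN₁ N hN (fun h => hNE (Or.inl h)) b ?_
      rw [mul_div_cancel_left₀ δ (by norm_num : (2 : ℝ) ≠ 0)]
      exact h1 N (fun h => hNE (Or.inr h)))
  filter_upwards [eventually_ge_atTop N₂, eventually_ge_atTop 3] with N h2 h3
  have h4 := hN₂ N h2
  have hl := log_ge N h3
  have hl0 : 0 < Real.log N := by linarith
  rw [L_log, norm_mul, norm_log N h3, one_div, inv_mul_le_iff₀ hl0]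
  refine h4.trans ?_
  have h5 : B * (δ + δ) ≤ ε / 2 := by
    have : B * δ ≤ ε / 4 := by
      calc B * δ ≤ (B + 1) * (ε / (4 * (B + 1))) := mul_le_mul (by linarith) hδ2 hδ0.le (by linarith)
        _ = ε / 4 := by field_simp
    linarith
  rw [mul_comm]
  apply mul_le_mul_of_nonneg_left _ hl0.le
  linarith

/-- the conclusions for logarithmic averages -/
lemma concl_long {u : ℕ → ℂ} (hu : ∀ n, ‖u n‖ ≤ 1) {F : ℕ → ℂ} (B : ℝ) (hB : ∀ n, ‖F n‖ ≤ B)
    (h : Short u atTop logw (fun N => N) F) :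
    Tendsto (fun N : ℕ => (1 / (Real.log N : ℂ)) * ∑ n ∈ Icc 1 N, u n * F n / n) atTop (𝓝 0) := by
  rw [Metric.tendsto_nhds]
  intro ε hε
  have hB0 : 0 ≤ B := (norm_nonneg _).trans (hB 0)
  have h1 := long_of_short fam_log hu B hB h (ε / 4) (by positivity)
  have h2 : ∀ᶠ N : ℕ in atTop, 12 * (B + 1) / ε ≤ Real.log N := tendsto_log.eventually_ge_atTop _
  filter_upwards [h1, h2, eventually_ge_atTop 3] with N h3 h4 h5
  have hl := log_ge N h5
  have hl0 : 0 < Real.log N := by linarith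
  have ha : ∀ n, ‖u n * F n‖ ≤ B := by
    intro n
    rw [norm_mul]
    calc ‖u n‖ * ‖F n‖ ≤ 1 * B := mul_le_mul (hu n) (hB n) (norm_nonneg _) zero_le_one
      _ = B := one_mul _
  have h6 := shift_sum (fun n => u n * F n) B ha N
  rw [L_log, norm_mul, norm_log N h5, one_div, inv_mul_le_iff₀ hl0] at h3
  rw [dist_zero_right, norm_mul, norm_log N h5, one_div, inv_mul_lt_iff₀ hl0]
  have h7 := norm_add_le (∑ n ∈ Icc 1 N, u n * F n / (n : ℂ) - ∑ n ∈ range N, u n * F n * (1 / ((n : ℂ) + 1)))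
    (∑ n ∈ range N, u n * F n * (1 / ((n : ℂ) + 1)))
  rw [sub_add_cancel] at h7
  rw [div_le_iff₀ hε] at h4
  have h8 : 3 * B ≤ Real.log N * (ε / 4) := by nlinarith
  nlinarith

lemma concl_short {u : ℕ → ℂ} (hu : ∀ n, ‖u n‖ ≤ 1) {F : ℕ → ℂ} (B : ℝ) (hB : ∀ n, ‖F n‖ ≤ B)
    (h : Short u atTop logw (fun N => N) F) (ε : ℝ) (hε : 0 < ε) : ∃ H₀ : ℕ, ∀ H : ℕ, H₀ ≤ H → ∃ N₀ : ℕ,
      ∀ N : ℕ, N₀ ≤ N → ∑ n ∈ Icc 1 N, ‖∑ m ∈ Icc 1 H, u (n + m) * F (n + m)‖ / n ≤ ε * (H * Real.log N) := by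
  have hB0 : 0 ≤ B := (norm_nonneg _).trans (hB 0)
  obtain ⟨H₀, h1⟩ := h (ε / 6) (by positivity)
  refine ⟨H₀, fun H hH => ?_⟩
  have h2 : ∀ᶠ N : ℕ in atTop, 12 * (B + 1) / ε ≤ Real.log N := tendsto_log.eventually_ge_atTop _
  obtain ⟨N₀, hN₀⟩ := ((h1 H hH).and (h2.and (eventually_ge_atTop 3))).exists_forall_of_atTop
  refine ⟨N₀, fun N hN => ?_⟩
  obtain ⟨h3, h4, h5⟩ := hN₀ N hN
  have hl := log_ge N h5
  have hl0 : 0 < Real.log N := by linarith
  have ha : ∀ n, ‖u n * F n‖ ≤ B := by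
    intro n
    rw [norm_mul]
    calc ‖u n‖ * ‖F n‖ ≤ 1 * B := mul_le_mul (hu n) (hB n) (norm_nonneg _) zero_le_one
      _ = B := one_mul _
  set g : ℕ → ℝ := fun n => ‖∑ m ∈ range H, u (n + m) * F (n + m)‖ with hg
  have hg0 : ∀ n, 0 ≤ g n := fun n => norm_nonneg _
  have hgB : ∀ n, g n ≤ H * B := by
    intro n
    rw [hg]
    refine (norm_sum_le _ _).trans ?_
    refine (sum_le_sum fun m _ => ha _).trans ?_
    rw [sum_const, card_range, nsmul_eq_mul]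
  have e1 : ∑ n ∈ range N, logw N n * g n = (∑ n ∈ range N, g n / ((n : ℝ) + 1)) / Real.log N := by
    rw [sum_div]
    refine sum_congr rfl fun n hn => ?_
    unfold logw
    rw [if_pos (mem_range.1 hn)]
    ring
  have h3' : (∑ n ∈ range N, g n / ((n : ℝ) + 1)) / Real.log N ≤ ε / 6 * H := by
    rw [← e1]
    exact h3
  rw [div_le_iff₀ hl0] at h3'
  have e2 : ∑ n ∈ Icc 1 N, ‖∑ m ∈ Icc 1 H, u (n + m) * F (n + m)‖ / (n : ℝ) =
      ∑ n ∈ range N, g (n + 2) / ((n : ℝ) + 1) := by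
    rw [Icc_eq]
    refine sum_congr rfl fun n _ => ?_
    rw [hg]
    push_cast
    congr 2
    rw [range_eq_Ico]
    have e4 : ∑ m ∈ Icc 1 H, u (n + 1 + m) * F (n + 1 + m) =
        ∑ m ∈ Ico 0 H, (fun m => u (n + 1 + m) * F (n + 1 + m)) (m + 1) := by
      rw [sum_Ico_add' (fun m => u (n + 1 + m) * F (n + 1 + m)) 0 H 1]
      rfl
    rw [e4]
    refine sum_congr rfl fun m _ => ?_
    show u (n + 1 + (m + 1)) * F (n + 1 + (m + 1)) = _
    rw [show n + 1 + (m + 1) = n + 2 + m by ring]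
  have e3 : ∑ n ∈ range N, g (n + 2) / ((n : ℝ) + 1) ≤ 3 * ∑ n ∈ range (N + 2), g n / ((n : ℝ) + 1) := by
    rw [sum_range_succ' (fun n => g n / ((n : ℝ) + 1)) (N + 1),
      sum_range_succ' (fun n => g (n + 1) / (((n + 1 : ℕ) : ℝ) + 1)) N]
    have t1 : 0 ≤ g 0 / (((0 : ℕ) : ℝ) + 1) := div_nonneg (hg0 _) (by positivity)
    have t2 : 0 ≤ g (0 + 1) / (((0 + 1 : ℕ) : ℝ) + 1) := div_nonneg (hg0 _) (by positivity)
    have t3 : ∑ n ∈ range N, g (n + 2) / ((n : ℝ) + 1) ≤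
        3 * ∑ n ∈ range N, g (n + 1 + 1) / (((n + 1 + 1 : ℕ) : ℝ) + 1) := by
      rw [mul_sum]
      refine sum_le_sum fun n _ => ?_
      have hn : (0 : ℝ) ≤ n := Nat.cast_nonneg n
      have t4 := hg0 (n + 2)
      show g (n + 2) / ((n : ℝ) + 1) ≤ 3 * (g (n + 2) / (((n + 1 + 1 : ℕ) : ℝ) + 1))
      push_cast
      rw [mul_div_assoc', div_le_div_iff₀ (by linarith) (by linarith)]
      nlinarith
    linarith
  have e4 : ∑ n ∈ range (N + 2), g n / ((n : ℝ) + 1) ≤ ∑ n ∈ range N, g n / ((n : ℝ) + 1) + 2 * (H * B) := by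
    rw [sum_range_succ, sum_range_succ]
    have t5 : ∀ n : ℕ, g n / ((n : ℝ) + 1) ≤ H * B := by
      intro n
      have hn : (0 : ℝ) ≤ n := Nat.cast_nonneg n
      rw [div_le_iff₀ (by linarith)]
      have := hgB n
      have : (0 : ℝ) ≤ H * B := by positivity
      nlinarith
    have := t5 N
    have := t5 (N + 1)
    linarith
  rw [e2]
  rw [div_le_iff₀ hε] at h4
  have hH : (0 : ℝ) ≤ H := Nat.cast_nonneg H
  have h8 : (H : ℝ) * (6 * B) ≤ H * (Real.log N * ε / 2) := by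
    apply mul_le_mul_of_nonneg_left _ hH
    nlinarith
  calc ∑ n ∈ range N, g (n + 2) / ((n : ℝ) + 1) ≤
        3 * (∑ n ∈ range N, g n / ((n : ℝ) + 1) + 2 * (H * B)) := e3.trans (by linarith)
    _ ≤ 3 * (ε / 6 * H * Real.log N + 2 * (H * B)) := by linarith
    _ = ε / 2 * H * Real.log N + H * (6 * B) := by ring
    _ ≤ ε * (H * Real.log N) := by nlinarith

/-- from logarithmic averages to the abstract condition -/
lemma kills_of_tendsto {u : ℕ → ℂ} (hu : ∀ n, ‖u n‖ ≤ 1) {b : ℕ → ℂ} (B : ℝ) (hB : ∀ n, ‖b n‖ ≤ B)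
    (h : ∀ k : ℕ, 1 ≤ k → Tendsto (fun N : ℕ => (1 / (Real.log N : ℂ)) *
      ∑ n ∈ Icc 1 N, (starRingEnd ℂ) (u n) * u (n + k) * b n / n) atTop (𝓝 0)) :
    Kills u atTop logw (fun N => N) b := by
  intro k hk ε hε
  have hB0 : 0 ≤ B := (norm_nonneg _).trans (hB 0)
  have h1 := (Metric.tendsto_nhds.1 (h k hk)) (ε / 4) (by positivity)
  have h2 : ∀ᶠ N : ℕ in atTop, 12 * (B + 1) / ε ≤ Real.log N := tendsto_log.eventually_ge_atTop _
  filter_upwards [h1, h2, eventually_ge_atTop 3] with N h3 h4 h5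
  have hl := log_ge N h5
  have hl0 : 0 < Real.log N := by linarith
  have ha : ∀ n, ‖(starRingEnd ℂ) (u n) * u (n + k) * b n‖ ≤ B := by
    intro n
    rw [norm_mul, norm_mul, RCLike.norm_conj]
    calc ‖u n‖ * ‖u (n + k)‖ * ‖b n‖ ≤ 1 * 1 * B := by
          gcongr
          · exact hu n
          · exact hu _
          · exact hB n
      _ = B := by ring
  have h6 := shift_sum (fun n => (starRingEnd ℂ) (u n) * u (n + k) * b n) B ha N
  rw [L_log, norm_mul, norm_log N h5, one_div, inv_mul_le_iff₀ hl0]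
  rw [dist_zero_right, norm_mul, norm_log N h5, one_div, inv_mul_lt_iff₀ hl0] at h3
  have h7 := norm_add_le (∑ n ∈ range N, (starRingEnd ℂ) (u n) * u (n + k) * b n * (1 / ((n : ℂ) + 1)) -
    ∑ n ∈ Icc 1 N, (starRingEnd ℂ) (u n) * u (n + k) * b n / (n : ℂ))
    (∑ n ∈ Icc 1 N, (starRingEnd ℂ) (u n) * u (n + k) * b n / (n : ℂ))
  rw [sub_add_cancel, norm_sub_rev] at h7
  rw [div_le_iff₀ hε] at h4
  have h8 : 3 * B ≤ Real.log N * (ε / 4) := by nlinarith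
  nlinarith

section
variable {X K : Type} [TopologicalSpace X] [CompactSpace X] [T2Space X] [TopologicalSpace K] [Group K]
  [IsTopologicalGroup K] [CompactSpace K] [T2Space K] [MulAction K X] [ContinuousSMul K X]

/-- the theorem for a compact group of symmetries -/
theorem short_sym {u : ℕ → ℂ} (hu : ∀ n, ‖u n‖ ≤ 1) {T : X → X} (hT : Continuous T)
    (hTK : ∀ (k : K) (x : X), T (k • x) = k • T x) (x₀ : X)
    (hK : ∀ c : C(X, ℂ), (∀ (k : K) (x : X), c (k • x) = c x) →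
      Kills u atTop logw (fun N => N) (fun n => c (T^[n] x₀))) (F : C(X, ℂ)) :
    Short u atTop logw (fun N => N) (fun n => F (T^[n] x₀)) := by
  have hπ : Continuous (Quotient.mk (MulAction.orbitRel K X)) := continuous_quotient_mk'
  refine short_all (π := Quotient.mk (MulAction.orbitRel K X)) fam_log hu x₀ (fun c => ?_) ?_
    (fun x x' hx => sep (K := K) hT hTK x x' hx) F
  · refine hK (c.comp ⟨_, hπ⟩) fun k x => ?_
    show c _ = c _
    congr 1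
    exact Quotient.sound ⟨k, rfl⟩
  · have hr : ∀ x x' : X, MulAction.orbitRel K X x x' →
        Quotient.mk (MulAction.orbitRel K X) (T x) = Quotient.mk (MulAction.orbitRel K X) (T x') := by
      rintro x x' ⟨g, hg⟩
      rw [← hg]
      apply Quotient.sound
      exact ⟨g, (hTK g x').symm⟩
    let S : Quotient (MulAction.orbitRel K X) → Quotient (MulAction.orbitRel K X) := Quotient.lift _ hr
    have hS : Continuous S := continuous_quot_lift _ (hπ.comp hT)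
    have h1 := good_base (T := T) (S := S) hS hπ (fun x => rfl) (1 : C(Quotient (MulAction.orbitRel K X), ℂ))
    exact h1

end

end Pool.Agent.V11210.LS
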