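import Mathlib

/-!
# Logarithmic averages from natural averages outside a set of logarithmic density zero
-/

set_option autoImplicit false

open Finset Filter Topology

namespace Pool.Agent.V11210.LS

open Classical in
/-- `E` has logarithmic density zero -/
def LDZ (E : Set ℕ) : Prop := Tendsto
  (fun X : ℕ => (∑ n ∈ Icc 1 X, if n ∈ E then (1 : ℝ) / n else 0) / Real.log X) atTop (nhds 0)

lemma abel (c : ℕ → ℂ) (N : ℕ) : ∑ n ∈ range N, c n * (1 / ((n : ℂ) + 1)) =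
    (∑ n ∈ range N, c n) * (1 / ((N : ℂ) + 1)) +
      ∑ n ∈ range N, (∑ k ∈ range (n + 1), c k) * (1 / (((n : ℂ) + 1) * ((n : ℂ) + 2))) := by
  induction N with
  | zero => simp
  | succ N ih =>
    rw [sum_range_succ, ih, sum_range_succ (fun n => (∑ k ∈ range (n + 1), c k) * _), sum_range_succ c N]
    have h1 : (N : ℂ) + 1 ≠ 0 := by exact_mod_cast Nat.succ_ne_zero N
    have h2 : (N : ℂ) + 2 ≠ 0 := by exact_mod_cast (by omega : N + 2 ≠ 0)
    push_cast
    rw [show (N : ℂ) + 1 + 1 = N + 2 by ring]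
    field_simp
    ring

lemma harm_le (N : ℕ) : ∑ n ∈ range N, 1 / ((n : ℝ) + 1) ≤ 1 + Real.log N := by
  have h := harmonic_le_one_add_log N
  rw [harmonic] at h
  push_cast at h
  simpa [one_div] using h

lemma Icc_eq (g : ℕ → ℝ) (N : ℕ) : ∑ n ∈ Icc 1 N, g n = ∑ n ∈ range N, g (n + 1) := by
  rw [range_eq_Ico, sum_Ico_add' g 0 N 1]
  rfl

/-- the partial summation -/
lemma log_eps (c : ℕ → ℂ) (B : ℝ) (hB : ∀ n, ‖c n‖ ≤ B) (E : Set ℕ) (hE : LDZ E) (ε : ℝ) (hε : 0 < ε)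
    (N₀ : ℕ) (h : ∀ N : ℕ, N₀ ≤ N → N ∉ E → ‖∑ n ∈ range N, c n‖ ≤ ε * N) :
    ∃ N₁ : ℕ, ∀ N : ℕ, N₁ ≤ N → ‖∑ n ∈ range N, c n * (1 / ((n : ℂ) + 1))‖ ≤ 2 * ε * Real.log N := by
  classical
  have hB0 : 0 ≤ B := (norm_nonneg _).trans (hB 0)
  have hS : ∀ n : ℕ, ‖∑ k ∈ range n, c k‖ ≤ B * n := by
    intro n
    refine (norm_sum_le _ _).trans ((sum_le_sum fun k _ => hB k).trans ?_)
    rw [sum_const, card_range, nsmul_eq_mul]
    linarith
  have hE' : ∀ᶠ X : ℕ in atTop, (∑ n ∈ Icc 1 X, if n ∈ E then (1 : ℝ) / n else 0) / Real.log X <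
      ε / (4 * (B + 1)) := hE.eventually_lt_const (by positivity)
  have hlog : ∀ᶠ X : ℕ in atTop, (B + ε + B * N₀) * (4 / ε) ≤ Real.log X :=
    (Real.tendsto_log_atTop.comp tendsto_natCast_atTop_atTop).eventually_ge_atTop _
  obtain ⟨N₁, hN₁⟩ := (hE'.and (hlog.and (eventually_ge_atTop 3))).exists_forall_of_atTop
  refine ⟨N₁, fun N hN => ?_⟩
  obtain ⟨h1, h2, h3⟩ := hN₁ N hN
  have hNR : (3 : ℝ) ≤ N := by exact_mod_cast h3
  have hlogN : 0 < Real.log N := Real.log_pos (by linarith)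
  rw [div_lt_iff₀ hlogN] at h1
  rw [mul_div_assoc', div_le_iff₀ hε] at h2
  rw [abel]
  have t1 : ‖(∑ n ∈ range N, c n) * (1 / ((N : ℂ) + 1))‖ ≤ B := by
    rw [norm_mul, norm_div, norm_one]
    have e1 : ‖(N : ℂ) + 1‖ = (N : ℝ) + 1 := by
      have : ((N : ℂ) + 1) = ((N + 1 : ℕ) : ℂ) := by push_cast; ring
      rw [this, Complex.norm_natCast]
      push_cast
      ring
    rw [e1, mul_one_div, div_le_iff₀ (by positivity)]
    have := hS N
    nlinarith
  have t2 : ‖∑ n ∈ range N, (∑ k ∈ range (n + 1), c k) * (1 / (((n : ℂ) + 1) * ((n : ℂ) + 2)))‖ ≤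
      ∑ n ∈ range N, (ε * (1 / ((n : ℝ) + 1)) + B * (if n + 1 ∈ E then 1 / ((n : ℝ) + 1) else 0) +
        (if n < N₀ then B else 0)) := by
    refine (norm_sum_le _ _).trans (sum_le_sum fun n _ => ?_)
    have hn1 : (0 : ℝ) < (n : ℝ) + 1 := by positivity
    have hn2 : (0 : ℝ) < (n : ℝ) + 2 := by positivity
    have e1 : ‖((n : ℂ) + 1) * ((n : ℂ) + 2)‖ = ((n : ℝ) + 1) * ((n : ℝ) + 2) := by
      have : ((n : ℂ) + 1) * ((n : ℂ) + 2) = (((n + 1) * (n + 2) : ℕ) : ℂ) := by push_cast; ring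
      rw [this, Complex.norm_natCast]
      push_cast
      ring
    rw [norm_mul, norm_div, norm_one, e1]
    have hs := hS (n + 1)
    push_cast at hs
    have hle : 1 / (((n : ℝ) + 1) * ((n : ℝ) + 2)) * ((n : ℝ) + 1) ≤ 1 / ((n : ℝ) + 1) := by
      rw [one_div, mul_inv, mul_comm ((n : ℝ) + 1)⁻¹, mul_assoc, inv_mul_cancel₀ hn1.ne', mul_one, one_div]
      exact inv_anti₀ hn1 (by linarith)
    have hq : (0 : ℝ) ≤ 1 / (((n : ℝ) + 1) * ((n : ℝ) + 2)) := by positivity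
    have hle1 : 1 / ((n : ℝ) + 1) ≤ 1 := by
      rw [div_le_one hn1]
      have : (0 : ℝ) ≤ n := Nat.cast_nonneg n
      linarith
    have hp : (0 : ℝ) < 1 / ((n : ℝ) + 1) := by positivity
    by_cases hc1 : n + 1 ∈ E
    · rw [if_pos hc1]
      have hx : 0 ≤ (if n < N₀ then B else 0) := by split_ifs <;> [exact hB0; exact le_rfl]
      have hy : 0 ≤ ε * (1 / ((n : ℝ) + 1)) := by positivity
      calc ‖∑ k ∈ range (n + 1), c k‖ * (1 / (((n : ℝ) + 1) * ((n : ℝ) + 2)))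
          ≤ (B * ((n : ℝ) + 1)) * (1 / (((n : ℝ) + 1) * ((n : ℝ) + 2))) := by gcongr
        _ = B * (1 / (((n : ℝ) + 1) * ((n : ℝ) + 2)) * ((n : ℝ) + 1)) := by ring
        _ ≤ B * (1 / ((n : ℝ) + 1)) := by gcongr
        _ ≤ _ := by linarith
    · rw [if_neg hc1, mul_zero, add_zero]
      by_cases hc2 : n < N₀
      · rw [if_pos hc2]
        have hy : 0 ≤ ε * (1 / ((n : ℝ) + 1)) := by positivity
        calc ‖∑ k ∈ range (n + 1), c k‖ * (1 / (((n : ℝ) + 1) * ((n : ℝ) + 2)))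
            ≤ (B * ((n : ℝ) + 1)) * (1 / (((n : ℝ) + 1) * ((n : ℝ) + 2))) := by gcongr
          _ = B * (1 / (((n : ℝ) + 1) * ((n : ℝ) + 2)) * ((n : ℝ) + 1)) := by ring
          _ ≤ B * (1 / ((n : ℝ) + 1)) := by gcongr
          _ ≤ B * 1 := by gcongr
          _ ≤ _ := by linarith
      · rw [if_neg hc2, add_zero]
        have h5 := h (n + 1) (by omega) hc1
        push_cast at h5
        calc ‖∑ k ∈ range (n + 1), c k‖ * (1 / (((n : ℝ) + 1) * ((n : ℝ) + 2)))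
            ≤ (ε * ((n : ℝ) + 1)) * (1 / (((n : ℝ) + 1) * ((n : ℝ) + 2))) := by gcongr
          _ = ε * (1 / (((n : ℝ) + 1) * ((n : ℝ) + 2)) * ((n : ℝ) + 1)) := by ring
          _ ≤ ε * (1 / ((n : ℝ) + 1)) := by gcongr
  have t3 : ∑ n ∈ range N, (ε * (1 / ((n : ℝ) + 1)) + B * (if n + 1 ∈ E then 1 / ((n : ℝ) + 1) else 0) +
        (if n < N₀ then B else 0)) ≤ ε * (1 + Real.log N) + B * (ε / (4 * (B + 1)) * Real.log N) + B * N₀ := by
    rw [sum_add_distrib, sum_add_distrib, ← mul_sum, ← mul_sum]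
    have u1 := harm_le N
    have u2 : ∑ n ∈ range N, (if n + 1 ∈ E then 1 / ((n : ℝ) + 1) else 0) ≤ ε / (4 * (B + 1)) * Real.log N := by
      refine le_trans (le_of_eq ?_) h1.le
      rw [Icc_eq]
      refine sum_congr rfl fun n _ => ?_
      push_cast
      rfl
    have u3 : ∑ n ∈ range N, (if n < N₀ then B else 0) ≤ B * N₀ := by
      rw [← sum_filter, sum_const, nsmul_eq_mul, mul_comm]
      apply mul_le_mul_of_nonneg_left _ hB0
      have : (filter (fun n => n < N₀) (range N)).card ≤ (range N₀).card := by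
        apply card_le_card
        intro n hn
        rw [mem_filter] at hn
        exact mem_range.2 hn.2
      rw [card_range] at this
      exact_mod_cast this
    gcongr
  have t4 : B * (ε / (4 * (B + 1)) * Real.log N) ≤ ε / 4 * Real.log N := by
    have : B * (ε / (4 * (B + 1))) ≤ ε / 4 := by
      rw [mul_div_assoc', div_le_div_iff₀ (by positivity) (by positivity)]
      nlinarith
    calc B * (ε / (4 * (B + 1)) * Real.log N) = B * (ε / (4 * (B + 1))) * Real.log N := by ring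
      _ ≤ ε / 4 * Real.log N := by gcongr
  have t5 := (norm_add_le _ _).trans (add_le_add t1 (t2.trans t3))
  refine t5.trans ?_
  nlinarith

end Pool.Agent.V11210.LS
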