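import Pool.Agent.V11210.LS.Abel
import Pool.Agent.Y842.CX.Ext

/-!
# Logarithmic averages as a family of averages
-/

set_option autoImplicit false

open Finset Filter Topology

namespace Pool.Agent.V11210.LS

open Pool.Agent.Y842.CX

/-- logarithmic averages -/
noncomputable def logw (N n : ℕ) : ℝ := if n < N then 1 / ((n : ℝ) + 1) / Real.log N else 0

lemma log_ge (N : ℕ) (hN : 3 ≤ N) : 1 ≤ Real.log N := by
  have h1 : (3 : ℝ) ≤ N := by exact_mod_cast hN
  have h2 : Real.log 3 ≤ Real.log N := Real.log_le_log (by norm_num) h1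
  have h3 : 1 ≤ Real.log 3 := by
    rw [Real.le_log_iff_exp_le (by norm_num)]
    have := Real.exp_one_lt_d9
    linarith
  linarith

lemma logw_wt (N : ℕ) (hN : 3 ≤ N) : Wt (logw N) N 2 (2 / Real.log N) := by
  have hl := log_ge N hN
  have hl0 : 0 < Real.log N := by linarith
  refine ⟨fun n => ?_, fun n hn => ?_, ?_, ?_⟩
  · unfold logw
    split_ifs
    · positivity
    · exact le_rfl
  · unfold logw
    rw [if_neg (by omega)]
  · have e : ∑ n ∈ range N, logw N n = (∑ n ∈ range N, 1 / ((n : ℝ) + 1)) / Real.log N := by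
      rw [sum_div]
      exact sum_congr rfl fun n hn => by
        unfold logw
        rw [if_pos (mem_range.1 hn)]
    rw [e, div_le_iff₀ hl0]
    have := harm_le N
    linarith
  · obtain ⟨K, rfl⟩ : ∃ K, N = K + 1 := ⟨N - 1, by omega⟩
    rw [sum_range_succ]
    have e1 : ∑ n ∈ range K, |logw (K + 1) (n + 1) - logw (K + 1) n| =
        logw (K + 1) 0 - logw (K + 1) K := by
      have e2 : ∀ n ∈ range K, |logw (K + 1) (n + 1) - logw (K + 1) n| =
          logw (K + 1) n - logw (K + 1) (n + 1) := by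
        intro n hn
        rw [mem_range] at hn
        rw [abs_sub_comm]
        apply abs_of_nonneg
        unfold logw
        rw [if_pos (by omega), if_pos (by omega), sub_nonneg]
        apply div_le_div_of_nonneg_right _ hl0.le
        apply one_div_le_one_div_of_le (by positivity)
        push_cast
        linarith
      rw [sum_congr rfl e2, sum_range_sub']
    have e2 : |logw (K + 1) (K + 1) - logw (K + 1) K| = logw (K + 1) K := by
      have h0 : logw (K + 1) (K + 1) = 0 := by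
        unfold logw
        rw [if_neg (by omega)]
      rw [h0, zero_sub, abs_neg]
      apply abs_of_nonneg
      unfold logw
      rw [if_pos (by omega)]
      positivity
    have e3 : logw (K + 1) 0 = 1 / Real.log (K + 1 : ℕ) := by
      unfold logw
      rw [if_pos (by omega)]
      simp
    have e4 : |logw (K + 1) 0| = 1 / Real.log (K + 1 : ℕ) := by
      rw [e3]
      exact abs_of_nonneg (by positivity)
    rw [e1, e2, e4, e3]
    apply le_of_eq
    ring

lemma tendsto_log : Tendsto (fun N : ℕ => Real.log (N : ℝ)) atTop atTop :=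
  Real.tendsto_log_atTop.comp tendsto_natCast_atTop_atTop

lemma fam_log : Fam (atTop : Filter ℕ) logw (fun N => N) 2 (fun N => 2 / Real.log (N : ℝ)) := by
  refine ⟨?_, ?_⟩
  · filter_upwards [eventually_ge_atTop 3] with N hN using logw_wt N hN
  · exact tendsto_log.const_div_atTop 2

lemma L_log (N : ℕ) (x : ℕ → ℂ) :
    L (logw N) N x = (1 / (Real.log N : ℂ)) * ∑ n ∈ range N, x n * (1 / ((n : ℂ) + 1)) := by
  unfold L
  rw [mul_sum]
  refine sum_congr rfl fun n hn => ?_
  unfold logw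
  rw [if_pos (mem_range.1 hn), smul_eq_mul]
  push_cast
  ring

/-- the difference of the two ways to write logarithmic sums -/
lemma shift_aux (x : ℕ → ℂ) (B : ℝ) (hB : ∀ n, ‖x n‖ ≤ B) (k : ℕ) :
    ‖∑ n ∈ Icc 1 (k + 1), x n / (n : ℂ) - ∑ n ∈ range (k + 1), x n * (1 / ((n : ℂ) + 1)) -
      x (k + 1) / ((k : ℂ) + 1)‖ ≤ B * (2 - 1 / ((k : ℝ) + 1)) := by
  have hB0 : 0 ≤ B := (norm_nonneg _).trans (hB 0)
  induction k with
  | zero =>
    have h := hB 0
    simp only [zero_add, Icc_self, sum_singleton, range_one, Nat.cast_zero, Nat.cast_one]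
    norm_num
    simpa using h
  | succ k ih =>
    have hk1 : (k : ℂ) + 1 ≠ 0 := by exact_mod_cast Nat.succ_ne_zero k
    have hk2 : (k : ℂ) + 2 ≠ 0 := by exact_mod_cast (by omega : k + 2 ≠ 0)
    have hkR : (0 : ℝ) < (k : ℝ) + 1 := by positivity
    rw [sum_Icc_succ_top (by omega), sum_range_succ _ (k + 1)]
    have e : ∑ n ∈ Icc 1 (k + 1), x n / (n : ℂ) + x (k + 1 + 1) / ((k + 1 + 1 : ℕ) : ℂ) -
        (∑ n ∈ range (k + 1), x n * (1 / ((n : ℂ) + 1)) + x (k + 1) * (1 / (((k + 1 : ℕ) : ℂ) + 1))) -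
        x (k + 1 + 1) / (((k + 1 : ℕ) : ℂ) + 1) =
        (∑ n ∈ Icc 1 (k + 1), x n / (n : ℂ) - ∑ n ∈ range (k + 1), x n * (1 / ((n : ℂ) + 1)) -
          x (k + 1) / ((k : ℂ) + 1)) + x (k + 1) * (1 / (((k : ℂ) + 1) * ((k : ℂ) + 2))) := by
      push_cast
      rw [show (k : ℂ) + 1 + 1 = k + 2 by ring]
      field_simp
      ring
    rw [e]
    refine (norm_add_le _ _).trans ?_
    have e1 : ‖((k : ℂ) + 1) * ((k : ℂ) + 2)‖ = ((k : ℝ) + 1) * ((k : ℝ) + 2) := by
      have : ((k : ℂ) + 1) * ((k : ℂ) + 2) = (((k + 1) * (k + 2) : ℕ) : ℂ) := by push_cast; ring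
      rw [this, Complex.norm_natCast]
      push_cast
      ring
    have h2 : ‖x (k + 1) * (1 / (((k : ℂ) + 1) * ((k : ℂ) + 2)))‖ ≤ B * (1 / (((k : ℝ) + 1) * ((k : ℝ) + 2))) := by
      rw [norm_mul, norm_div, norm_one, e1]
      have := hB (k + 1)
      gcongr
    have h3 : B * (2 - 1 / ((k : ℝ) + 1)) + B * (1 / (((k : ℝ) + 1) * ((k : ℝ) + 2))) =
        B * (2 - 1 / (((k + 1 : ℕ) : ℝ) + 1)) := by
      push_cast
      rw [show (k : ℝ) + 1 + 1 = k + 2 by ring]
      field_simp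
      ring
    linarith

lemma shift_sum (x : ℕ → ℂ) (B : ℝ) (hB : ∀ n, ‖x n‖ ≤ B) (N : ℕ) :
    ‖∑ n ∈ Icc 1 N, x n / (n : ℂ) - ∑ n ∈ range N, x n * (1 / ((n : ℂ) + 1))‖ ≤ 3 * B := by
  have hB0 : 0 ≤ B := (norm_nonneg _).trans (hB 0)
  rcases Nat.eq_zero_or_pos N with rfl | hN
  · simpa using hB0
  · obtain ⟨k, rfl⟩ : ∃ k, N = k + 1 := ⟨N - 1, by omega⟩
    have h1 := shift_aux x B hB k
    have h2 : ‖x (k + 1) / ((k : ℂ) + 1)‖ ≤ B := by
      have e1 : ‖(k : ℂ) + 1‖ = (k : ℝ) + 1 := by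
        have : ((k : ℂ) + 1) = ((k + 1 : ℕ) : ℂ) := by push_cast; ring
        rw [this, Complex.norm_natCast]
        push_cast
        ring
      rw [norm_div, e1, div_le_iff₀ (by positivity)]
      have h3 := hB (k + 1)
      have h4 : (0 : ℝ) ≤ k := Nat.cast_nonneg k
      nlinarith
    have h3 : B * (2 - 1 / ((k : ℝ) + 1)) ≤ 2 * B := by
      have : (0 : ℝ) ≤ 1 / ((k : ℝ) + 1) := by positivity
      nlinarith
    calc _ = ‖(∑ n ∈ Icc 1 (k + 1), x n / (n : ℂ) - ∑ n ∈ range (k + 1), x n * (1 / ((n : ℂ) + 1)) -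
          x (k + 1) / ((k : ℂ) + 1)) + x (k + 1) / ((k : ℂ) + 1)‖ := by congr 1; ring
      _ ≤ _ := norm_add_le _ _
      _ ≤ 3 * B := by linarith

end Pool.Agent.V11210.LS
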